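import Pool.Agent.U586.HV.Main

/-!
# Values of the Hodge polynomial and derived equivalence: special points
-/

set_option autoImplicit false

namespace Pool.Agent.U586.HV

open Polynomial Pool.Agent.U152.HN

universe u

variable (T : HodgeData.{u})

lemma h_zero {A : T.V} {p q : ℕ}
    (h : ¬ (p, q) ∈ Finset.range (T.dim A + 1) ×ˢ Finset.range (T.dim A + 1)) : T.h A p q = 0 := by
  by_contra h0
  have h1 := T.h_bound A p q h0
  apply h
  rw [Finset.mem_product, Finset.mem_range, Finset.mem_range]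
  exact ⟨by dsimp only; omega, by dsimp only; omega⟩

/-- if only `(p, q)` gives the value `x ^ p * y ^ q` then the class sum is `h^{p,q}` -/
lemma classSum_single {x y : ℝ} {p q : ℕ}
    (hxy : ∀ p' q' : ℕ, x ^ p' * y ^ q' = x ^ p * y ^ q → p' = p ∧ q' = q) (A : T.V) :
    classSum T x y (x ^ p * y ^ q) A = T.h A p q := by
  unfold classSum
  by_cases h : (p, q) ∈ Finset.range (T.dim A + 1) ×ˢ Finset.range (T.dim A + 1)
  · rw [Finset.sum_eq_single (p, q)]
    · intro z hz hne
      obtain ⟨h1, h2⟩ := hxy z.1 z.2 (Finset.mem_filter.1 hz).2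
      exact absurd (Prod.ext h1 h2) hne
    · intro hn
      refine absurd ?_ hn
      exact Finset.mem_filter.2 ⟨h, rfl⟩
  · rw [h_zero T h]
    refine Finset.sum_eq_zero fun z hz => ?_
    obtain ⟨hz1, hz2⟩ := Finset.mem_filter.1 hz
    obtain ⟨h1, h2⟩ := hxy z.1 z.2 hz2
    exact absurd (by rw [← h1, ← h2]; exact hz1) h

lemma invariant_of_classSum {x y : ℝ} (hx : 0 < x) (hy : 0 < y)
    (hxy : ∀ p q p' q' : ℕ, x ^ p * y ^ q = x ^ p' * y ^ q' → p = p' ∧ q = q')
    (h : ClassSumsInvariant T x y) : T.Invariant := by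
  intro A B hAB p q
  have h1 := h A B hAB (x ^ p * y ^ q) (by positivity)
  rwa [classSum_single T (fun p' q' => hxy p' q' p q), classSum_single T
    (fun p' q' => hxy p' q' p q)] at h1

lemma row_of_classSum {y : ℝ} (hy : 0 < y) (hy1 : y ≠ 1)
    (h : ClassSumsInvariant T 0 y) : T.RowInvariant := by
  intro A B hAB q
  have h1 := h A B hAB (0 ^ 0 * y ^ q) (by rw [pow_zero, one_mul]; positivity)
  have h2 : ∀ p' q' : ℕ, (0 : ℝ) ^ p' * y ^ q' = 0 ^ 0 * y ^ q → p' = 0 ∧ q' = q := by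
    intro p' q' h3
    have h4 : y ^ q ≠ 0 := by positivity
    rcases Nat.eq_zero_or_pos p' with rfl | hp
    · refine ⟨rfl, pow_right_injective₀ hy hy1 ?_⟩
      simpa using h3
    · rw [zero_pow hp.ne', zero_mul, pow_zero, one_mul] at h3
      exact absurd h3.symm h4
  rwa [classSum_single T h2, classSum_single T h2] at h1

lemma classSum_diag {x : ℝ} (hx : 0 < x) (hx1 : x ≠ 1) (k : ℕ) (A : T.V) :
    classSum T x x (x ^ k) A = T.betti A k := by
  unfold classSum HodgeData.betti
  refine Finset.sum_subset ?_ ?_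
  · intro z hz
    rw [Finset.HasAntidiagonal.mem_antidiagonal]
    have h1 := (Finset.mem_filter.1 hz).2
    rw [← pow_add] at h1
    exact pow_right_injective₀ hx hx1 h1
  · intro z hz hn
    refine h_zero T fun hmem => hn (Finset.mem_filter.2 ⟨hmem, ?_⟩)
    rw [← pow_add, Finset.HasAntidiagonal.mem_antidiagonal.1 hz]

lemma betti_of_classSum {x : ℝ} (hx : 0 < x) (hx1 : x ≠ 1)
    (h : ClassSumsInvariant T x x) : T.BettiInvariant := by
  intro A B hAB k
  have h1 := h A B hAB (x ^ k) (by positivity)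
  rwa [classSum_diag T hx hx1, classSum_diag T hx hx1] at h1

lemma value_of_invariant (x y : ℝ) (h : T.Invariant) : ValueInvariant T x y := by
  intro A B hAB
  unfold value
  rw [T.deq_dim A B hAB]
  exact Finset.sum_congr rfl fun z _ => by rw [h A B hAB]

lemma value_of_betti (x : ℝ) (h : T.BettiInvariant) : ValueInvariant T x x := by
  intro A B hAB
  have h1 : (evalRingHom (X : ℤ[X]) : ℤ[X][X] →+* ℤ[X]) (T.poly A) =
      (evalRingHom (X : ℤ[X]) : ℤ[X][X] →+* ℤ[X]) (T.poly B) := by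
    ext k
    rw [HodgeData.coeff_betti, HodgeData.coeff_betti, h A B hAB]
  have h2 : ∀ F : ℤ[X][X], ev x x F = eval₂RingHom (Int.castRingHom ℝ) x
      ((evalRingHom (X : ℤ[X]) : ℤ[X][X] →+* ℤ[X]) F) := by
    intro F
    have h3 : ev x x = (eval₂RingHom (Int.castRingHom ℝ) x).comp
        (evalRingHom (X : ℤ[X]) : ℤ[X][X] →+* ℤ[X]) := by
      refine Polynomial.ringHom_ext' ?_ ?_
      · refine Polynomial.ringHom_ext' ?_ ?_
        · ext n
          simp
        · simp
      · simp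
    exact congrArg (fun g => g F) h3
  rw [← ev_poly, ← ev_poly, h2, h2, h1]

lemma value_of_row (y : ℝ) (h : T.RowInvariant) : ValueInvariant T 0 y := by
  intro A B hAB
  have h1 : (mapRingHom (evalRingHom (0 : ℤ)) : ℤ[X][X] →+* ℤ[X]) (T.poly A) =
      (mapRingHom (evalRingHom (0 : ℤ)) : ℤ[X][X] →+* ℤ[X]) (T.poly B) := by
    ext k
    rw [HodgeData.coeff_row, HodgeData.coeff_row, h A B hAB]
  have h2 : ∀ F : ℤ[X][X], ev 0 y F = eval₂RingHom (Int.castRingHom ℝ) y
      ((mapRingHom (evalRingHom (0 : ℤ)) : ℤ[X][X] →+* ℤ[X]) F) := by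
    intro F
    have h3 : ev 0 y = (eval₂RingHom (Int.castRingHom ℝ) y).comp
        (mapRingHom (evalRingHom (0 : ℤ)) : ℤ[X][X] →+* ℤ[X]) := by
      refine Polynomial.ringHom_ext' ?_ ?_
      · refine Polynomial.ringHom_ext' ?_ ?_
        · ext n
          simp
        · simp
      · simp
    exact congrArg (fun g => g F) h3
  rw [← ev_poly, ← ev_poly, h2, h2, h1]

lemma two_three (p q p' q' : ℕ) (h : (2 : ℝ) ^ p * 3 ^ q = 2 ^ p' * 3 ^ q') :
    p = p' ∧ q = q' := by
  have h1 : 2 ^ p * 3 ^ q = 2 ^ p' * 3 ^ q' := by exact_mod_cast h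
  constructor
  · have h2 := congrArg (fun n : ℕ => padicValNat 2 n) h1
    have i2 : Fact (Nat.Prime 2) := ⟨Nat.prime_two⟩
    have i3 : Fact (Nat.Prime 3) := ⟨Nat.prime_three⟩
    rw [padicValNat.mul (by positivity) (by positivity), padicValNat.mul (by positivity)
      (by positivity), padicValNat.prime_pow, padicValNat.prime_pow,
      padicValNat_prime_prime_pow q (by norm_num : (2 : ℕ) ≠ 3),
      padicValNat_prime_prime_pow q' (by norm_num : (2 : ℕ) ≠ 3)] at h2
    omega
  · have h2 := congrArg (fun n : ℕ => padicValNat 3 n) h1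
    have i2 : Fact (Nat.Prime 2) := ⟨Nat.prime_two⟩
    have i3 : Fact (Nat.Prime 3) := ⟨Nat.prime_three⟩
    rw [padicValNat.mul (by positivity) (by positivity), padicValNat.mul (by positivity)
      (by positivity), padicValNat.prime_pow, padicValNat.prime_pow,
      padicValNat_prime_prime_pow p (by norm_num : (3 : ℕ) ≠ 2),
      padicValNat_prime_prime_pow p' (by norm_num : (3 : ℕ) ≠ 2)] at h2
    omega

section

variable {ℓ : ℕ} (T : PowerClass.{u} ℓ)

theorem q1 (hℓ : ℓ.Prime) (h2 : ℓ ≠ 2) {x y : ℝ} (hx : 0 < x) (hy : 0 < y)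
    (hxy : ∀ p q p' q' : ℕ, x ^ p * y ^ q = x ^ p' * y ^ q' → p = p' ∧ q = q') :
    T.Invariant ↔ ValueComparable T.toHodgeData x y := by
  constructor
  · exact fun h => comp_of_inv _ hx.le hy.le (value_of_invariant _ x y h)
  · exact fun h => invariant_of_classSum _ hx hy hxy
      (((tfae T hℓ h2 hx.le hy.le).out 0 2).1 h)

theorem betti (hℓ : ℓ.Prime) (h2 : ℓ ≠ 2) {x : ℝ} (hx : 0 < x) (hx1 : x ≠ 1) :
    T.BettiInvariant ↔ ValueComparable T.toHodgeData x x := by
  constructor
  · exact fun h => comp_of_inv _ hx.le hx.le (value_of_betti _ x h)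
  · exact fun h => betti_of_classSum _ hx hx1 (((tfae T hℓ h2 hx.le hx.le).out 0 2).1 h)

theorem row (hℓ : ℓ.Prime) (h2 : ℓ ≠ 2) {y : ℝ} (hy : 0 < y) (hy1 : y ≠ 1) :
    T.RowInvariant ↔ ValueComparable T.toHodgeData 0 y := by
  constructor
  · exact fun h => comp_of_inv _ le_rfl hy.le (value_of_row _ y h)
  · exact fun h => row_of_classSum _ hy hy1 (((tfae T hℓ h2 le_rfl hy.le).out 0 2).1 h)

end

end Pool.Agent.U586.HV
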