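import Pool.Agent.U152.HN.Thy

/-!
# Values of the Hodge polynomial and derived equivalence: definitions
-/

set_option autoImplicit false

namespace Pool.Agent.U586.HV

open Polynomial Pool.Agent.U152.HN

universe u

/-- A class as in `CyclicClass` (it contains with `A` the quotient `(A ^ ℓ × E) / (ℤ/ℓ)`) which is also
closed under products. -/
structure PowerClass (ℓ : ℕ) extends CyclicClass.{u} ℓ where
  /-- the product -/
  prod : V → V → V
  deq_symm : ∀ A B, Deq A B → Deq B A
  deq_prod : ∀ A B A' B', Deq A B → Deq A' B' → Deq (prod A A') (prod B B')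
  dim_prod : ∀ A B, dim (prod A B) = dim A + dim B
  poly_prod : ∀ A B, HodgeData.poly toHodgeData (prod A B) =
    HodgeData.poly toHodgeData A * HodgeData.poly toHodgeData B

variable (T : HodgeData.{u})

/-- The value `∑ h^{p,q}(A) x ^ p y ^ q` of the Hodge polynomial. -/
noncomputable def value (x y : ℝ) (A : T.V) : ℝ :=
  ∑ z ∈ Finset.range (T.dim A + 1) ×ˢ Finset.range (T.dim A + 1),
    (T.h A z.1 z.2 : ℝ) * (x ^ z.1 * y ^ z.2)

/-- The value of the Hodge polynomial at `(x, y)` is a derived invariant. -/
def ValueInvariant (x y : ℝ) : Prop := ∀ A B, T.Deq A B → value T x y A = value T x y B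

/-- The values of the Hodge polynomials of derived equivalent varieties at `(x, y)` are comparable up to
a subexponential factor: for every `ε > 0` there is a `C` with `value A ≤ C exp (ε dim A) value B`. -/
def ValueComparable (x y : ℝ) : Prop :=
  ∀ ε : ℝ, 0 < ε → ∃ C : ℝ, ∀ A B, T.Deq A B →
    value T x y A ≤ C * Real.exp (ε * T.dim A) * value T x y B

/-- The sum of the Hodge numbers `h^{p,q}(A)` with `x ^ p y ^ q = v`. -/
noncomputable def classSum (x y v : ℝ) (A : T.V) : ℕ :=
  ∑ z ∈ Finset.range (T.dim A + 1) ×ˢ Finset.range (T.dim A + 1) with x ^ z.1 * y ^ z.2 = v,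
    T.h A z.1 z.2

/-- For every `v ≠ 0` the sum of the Hodge numbers `h^{p,q}` with `x ^ p y ^ q = v` is a derived
invariant. -/
def ClassSumsInvariant (x y : ℝ) : Prop :=
  ∀ A B, T.Deq A B → ∀ v : ℝ, v ≠ 0 → classSum T x y v A = classSum T x y v B

end Pool.Agent.U586.HV
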