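import Pool.Agent.U586.HV.Defs

/-!
# Values of the Hodge polynomial and derived equivalence: proofs
-/

set_option autoImplicit false

namespace Pool.Agent.U586.HV

open Polynomial Pool.Agent.U152.HN Filter Topology

universe u

/-- evaluation at the real point `(x, y)` -/
noncomputable def ev (x y : ℝ) : ℤ[X][X] →+* ℝ :=
  eval₂RingHom (eval₂RingHom (Int.castRingHom ℝ) x) y

@[simp] lemma ev_CC (x y : ℝ) (n : ℤ) : ev x y (C (C n)) = n := by
  simp [ev]

@[simp] lemma ev_CX (x y : ℝ) : ev x y (C X) = x := by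
  simp [ev]

@[simp] lemma ev_X (x y : ℝ) : ev x y X = y := by
  simp [ev]

lemma ev_poly (T : HodgeData.{u}) (x y : ℝ) (A : T.V) : ev x y (T.poly A) = value T x y A := by
  unfold HodgeData.poly value
  rw [map_sum, Finset.sum_product]
  refine Finset.sum_congr rfl fun p _ => ?_
  rw [map_sum]
  refine Finset.sum_congr rfl fun q _ => ?_
  simp

lemma ev_sub2 (x y : ℝ) (ℓ : ℕ) (hs : sgn ℓ = 1) (F : ℤ[X][X]) :
    ev x y (sub2 ℓ F) = ev (x ^ ℓ) (y ^ ℓ) F := by
  have h : (ev x y).comp (sub2 ℓ) = ev (x ^ ℓ) (y ^ ℓ) := by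
    refine Polynomial.ringHom_ext' ?_ ?_
    · refine Polynomial.ringHom_ext' ?_ ?_
      · ext n
        simp
      · simp [sub2, hs]
    · simp [sub2, hs]
  exact congrArg (fun g => g F) h

lemma sgn_odd {ℓ : ℕ} (hℓ : ℓ.Prime) (h2 : ℓ ≠ 2) : sgn ℓ = 1 := by
  unfold sgn
  have h := (hℓ.eq_two_or_odd').resolve_left h2
  obtain ⟨k, rfl⟩ := h
  simp

lemma value_nonneg (T : HodgeData.{u}) {x y : ℝ} (hx : 0 ≤ x) (hy : 0 ≤ y) (A : T.V) :
    0 ≤ value T x y A :=
  Finset.sum_nonneg fun z _ => by positivity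

section cyc

variable {ℓ : ℕ} (T : CyclicClass.{u} ℓ)

lemma value_cyc (hs : sgn ℓ = 1) (x y : ℝ) (A : T.V) :
    (ℓ : ℝ) * value T.toHodgeData x y (T.cyc A) =
      (value T.toHodgeData x y A ^ ℓ + ((ℓ : ℝ) - 1) * value T.toHodgeData (x ^ ℓ) (y ^ ℓ) A) *
        ((1 + x) * (1 + y)) := by
  have h := congrArg (ev x y) (T.poly_cyc A)
  rw [← ev_poly, ← ev_poly, ← ev_poly, ← ev_sub2 x y ℓ hs]
  simpa using h

/-- invariance at `(x, y)` gives invariance at `(x ^ ℓ, y ^ ℓ)` -/
lemma inv_step (hℓ : ℓ.Prime) (h2 : ℓ ≠ 2) {x y : ℝ} (hx : 0 ≤ x) (hy : 0 ≤ y)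
    (h : ValueInvariant T.toHodgeData x y) : ValueInvariant T.toHodgeData (x ^ ℓ) (y ^ ℓ) := by
  intro A B hAB
  have hs := sgn_odd hℓ h2
  have h1 := value_cyc T hs x y A
  have h3 := value_cyc T hs x y B
  rw [h _ _ (T.deq_cyc A B hAB), h _ _ hAB] at h1
  rw [h1] at h3
  have h4 : (1 + x) * (1 + y) ≠ 0 := by positivity
  have h5 := mul_right_cancel₀ h4 h3
  have h6 := add_left_cancel h5
  have h7 : (ℓ : ℝ) - 1 ≠ 0 := by
    have : (2 : ℝ) ≤ ℓ := by exact_mod_cast hℓ.two_le
    linarith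
  exact mul_left_cancel₀ h7 h6

lemma inv_iter (hℓ : ℓ.Prime) (h2 : ℓ ≠ 2) {x y : ℝ} (hx : 0 ≤ x) (hy : 0 ≤ y)
    (h : ValueInvariant T.toHodgeData x y) (k : ℕ) :
    ValueInvariant T.toHodgeData (x ^ ℓ ^ k) (y ^ ℓ ^ k) := by
  induction k with
  | zero => simpa using h
  | succ k ih =>
    have := inv_step T hℓ h2 (pow_nonneg hx _) (pow_nonneg hy _) ih
    rwa [← pow_mul, ← pow_mul, ← pow_succ] at this

end cyc

/-- The largest value dominates. -/
lemma peel {ℓ : ℕ} (hℓ : 1 < ℓ) (s : Finset ℝ) : (∀ v ∈ s, 0 ≤ v) → ∀ c : ℝ → ℝ,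
    (∀ k : ℕ, ∑ v ∈ s, c v * v ^ ℓ ^ k = 0) → ∀ v ∈ s, v ≠ 0 → c v = 0 := by
  induction s using Finset.induction_on_max with
  | empty => intro _ _ _ v hv; simp at hv
  | insert a s ha ih =>
    intro h0 c hc
    have has : a ∉ s := fun h => lt_irrefl _ (ha a h)
    have h0s : ∀ v ∈ s, 0 ≤ v := fun v hv => h0 v (Finset.mem_insert_of_mem hv)
    have ha0 : 0 ≤ a := h0 a (Finset.mem_insert_self _ _)
    rcases ha0.eq_or_lt with hz | hpos
    · intro v hv hv0
      rcases Finset.mem_insert.1 hv with rfl | hv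
      · exact absurd hz.symm hv0
      · exact absurd (ha v hv) (not_lt.2 (hz ▸ h0s v hv))
    · have hca : c a = 0 := by
        have h1 : ∀ k : ℕ, c a + ∑ v ∈ s, c v * (v / a) ^ ℓ ^ k = 0 := by
          intro k
          have h2 := hc k
          rw [Finset.sum_insert has] at h2
          have h3 : a ^ ℓ ^ k ≠ 0 := (pow_pos hpos _).ne'
          have h4 : (c a + ∑ v ∈ s, c v * (v / a) ^ ℓ ^ k) * a ^ ℓ ^ k = 0 := by
            rw [add_mul, Finset.sum_mul]
            rw [← h2]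
            congr 1
            refine Finset.sum_congr rfl fun v _ => ?_
            rw [div_pow]
            field_simp
          exact (mul_eq_zero.1 h4).resolve_right h3
        have h5 : Tendsto (fun k : ℕ => c a + ∑ v ∈ s, c v * (v / a) ^ ℓ ^ k) atTop
            (𝓝 (c a + ∑ v ∈ s, c v * 0)) := by
          refine tendsto_const_nhds.add (tendsto_finsetSum _ fun v hv => ?_)
          refine tendsto_const_nhds.mul ?_
          refine (tendsto_pow_atTop_nhds_zero_of_lt_one (div_nonneg (h0s v hv) hpos.le) ?_).comp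
            (tendsto_pow_atTop_atTop_of_one_lt hℓ)
          exact (div_lt_one hpos).2 (ha v hv)
        have h6 := tendsto_nhds_unique (h5.congr fun k => h1 k) tendsto_const_nhds
        simpa using h6
      have hcs : ∀ k : ℕ, ∑ v ∈ s, c v * v ^ ℓ ^ k = 0 := by
        intro k
        have h2 := hc k
        rw [Finset.sum_insert has, hca, zero_mul, zero_add] at h2
        exact h2
      intro v hv hv0
      rcases Finset.mem_insert.1 hv with rfl | hv
      · exact hca
      · exact ih h0s c hcs v hv hv0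

lemma value_pow_eq (T : HodgeData.{u}) (x y : ℝ) (m : ℕ) (A : T.V) (S : Finset ℝ)
    (hS : ∀ z ∈ Finset.range (T.dim A + 1) ×ˢ Finset.range (T.dim A + 1), x ^ z.1 * y ^ z.2 ∈ S) :
    value T (x ^ m) (y ^ m) A = ∑ v ∈ S, (classSum T x y v A : ℝ) * v ^ m := by
  unfold value classSum
  rw [← Finset.sum_fiberwise_of_maps_to hS]
  refine Finset.sum_congr rfl fun v _ => ?_
  push_cast
  rw [Finset.sum_mul]
  refine Finset.sum_congr rfl fun z hz => ?_
  rw [← (Finset.mem_filter.1 hz).2, mul_pow, ← pow_mul, ← pow_mul, ← pow_mul, ← pow_mul,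
    mul_comm m z.1, mul_comm m z.2]

lemma value_eq_sum (T : HodgeData.{u}) (x y : ℝ) (A : T.V) (S : Finset ℝ)
    (hS : ∀ z ∈ Finset.range (T.dim A + 1) ×ˢ Finset.range (T.dim A + 1), x ^ z.1 * y ^ z.2 ∈ S) :
    value T x y A = ∑ v ∈ S, (classSum T x y v A : ℝ) * v := by
  simpa using value_pow_eq T x y 1 A S hS

lemma classSum_of_inv {ℓ : ℕ} (T : CyclicClass.{u} ℓ) (hℓ : ℓ.Prime) (h2 : ℓ ≠ 2) {x y : ℝ}
    (hx : 0 ≤ x) (hy : 0 ≤ y) (h : ValueInvariant T.toHodgeData x y) :
    ClassSumsInvariant T.toHodgeData x y := by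
  intro A B hAB v hv
  have hd := T.deq_dim A B hAB
  set R := Finset.range (T.dim A + 1) ×ˢ Finset.range (T.dim A + 1) with hR
  set S : Finset ℝ := R.image fun z => x ^ z.1 * y ^ z.2 with hS
  have hSA : ∀ z ∈ Finset.range (T.dim A + 1) ×ˢ Finset.range (T.dim A + 1),
      x ^ z.1 * y ^ z.2 ∈ S := fun z hz => Finset.mem_image_of_mem _ hz
  have hSB : ∀ z ∈ Finset.range (T.dim B + 1) ×ˢ Finset.range (T.dim B + 1),
      x ^ z.1 * y ^ z.2 ∈ S := by
    rw [← hd]
    exact hSA
  by_cases hvS : v ∈ S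
  · have h3 := peel hℓ.one_lt S (fun w hw => by
      obtain ⟨z, _, rfl⟩ := Finset.mem_image.1 hw
      positivity)
      (fun w => (classSum T.toHodgeData x y w A : ℝ) - classSum T.toHodgeData x y w B)
      (fun k => by
        have h4 := inv_iter T hℓ h2 hx hy h k A B hAB
        rw [value_pow_eq _ x y _ A S hSA, value_pow_eq _ x y _ B S hSB] at h4
        rw [← sub_eq_zero, ← Finset.sum_sub_distrib] at h4
        rw [← h4]
        exact Finset.sum_congr rfl fun w _ => by ring) v hvS hv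
    have h4 : (classSum T.toHodgeData x y v A : ℝ) = classSum T.toHodgeData x y v B :=
      sub_eq_zero.1 h3
    exact_mod_cast h4
  · unfold classSum
    rw [← hd, Finset.filter_false_of_mem, Finset.sum_empty, Finset.sum_empty]
    intro z hz hzv
    exact hvS (hzv ▸ hSA z hz)

lemma inv_of_classSum (T : HodgeData.{u}) {x y : ℝ} (h : ClassSumsInvariant T x y) :
    ValueInvariant T x y := by
  intro A B hAB
  have hd := T.deq_dim A B hAB
  set R := Finset.range (T.dim A + 1) ×ˢ Finset.range (T.dim A + 1) with hR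
  set S : Finset ℝ := R.image fun z => x ^ z.1 * y ^ z.2 with hS
  have hSA : ∀ z ∈ Finset.range (T.dim A + 1) ×ˢ Finset.range (T.dim A + 1),
      x ^ z.1 * y ^ z.2 ∈ S := fun z hz => Finset.mem_image_of_mem _ hz
  have hSB : ∀ z ∈ Finset.range (T.dim B + 1) ×ˢ Finset.range (T.dim B + 1),
      x ^ z.1 * y ^ z.2 ∈ S := by
    rw [← hd]
    exact hSA
  rw [value_eq_sum T x y A S hSA, value_eq_sum T x y B S hSB]
  refine Finset.sum_congr rfl fun v _ => ?_
  by_cases hv : v = 0
  · simp [hv]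
  · rw [h A B hAB v hv]

lemma comp_of_inv (T : HodgeData.{u}) {x y : ℝ} (hx : 0 ≤ x) (hy : 0 ≤ y)
    (h : ValueInvariant T x y) : ValueComparable T x y := by
  intro ε hε
  refine ⟨1, fun A B hAB => ?_⟩
  rw [h A B hAB, one_mul]
  have h1 := value_nonneg T hx hy B
  have h2 : (1 : ℝ) ≤ Real.exp (ε * T.dim A) := Real.one_le_exp (by positivity)
  nlinarith

section powers

variable {ℓ : ℕ} (T : PowerClass.{u} ℓ)

/-- the power `A ^ (N + 1)` -/
def pw (A : T.V) : ℕ → T.V
  | 0 => A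
  | N + 1 => T.prod (pw A N) A

lemma pw_deq {A B : T.V} (h : T.Deq A B) (N : ℕ) : T.Deq (pw T A N) (pw T B N) := by
  induction N with
  | zero => exact h
  | succ N ih => exact T.deq_prod _ _ _ _ ih h

lemma pw_dim (A : T.V) (N : ℕ) : T.dim (pw T A N) = (N + 1) * T.dim A := by
  induction N with
  | zero => simp [pw]
  | succ N ih => rw [pw, T.dim_prod, ih]; ring

lemma pw_value (x y : ℝ) (A : T.V) (N : ℕ) :
    value T.toHodgeData x y (pw T A N) = value T.toHodgeData x y A ^ (N + 1) := by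
  induction N with
  | zero => simp [pw]
  | succ N ih =>
    rw [pw, ← ev_poly, T.poly_prod, map_mul, ev_poly, ev_poly, ih, pow_succ _ (N + 1)]

lemma le_of_pow {a b C : ℝ} (hb : 0 ≤ b) (h : ∀ N : ℕ, a ^ (N + 1) ≤ C * b ^ (N + 1)) :
    a ≤ b := by
  by_contra hab
  rw [not_le] at hab
  rcases hb.eq_or_lt with rfl | hb
  · have := h 0
    simp at this
    linarith
  · have h1 : 1 < a / b := (one_lt_div hb).2 hab
    obtain ⟨N, hN⟩ := pow_unbounded_of_one_lt C h1
    have h2 := h N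
    have h3 : (a / b) ^ (N + 1) ≤ C := by
      rw [div_pow, div_le_iff₀ (pow_pos hb _)]
      exact h2
    have h4 : (a / b) ^ N ≤ (a / b) ^ (N + 1) := pow_le_pow_right₀ h1.le (Nat.le_succ N)
    linarith

lemma inv_of_comp {x y : ℝ} (hx : 0 ≤ x) (hy : 0 ≤ y)
    (h : ValueComparable T.toHodgeData x y) : ValueInvariant T.toHodgeData x y := by
  have key : ∀ A B, T.Deq A B → value T.toHodgeData x y A ≤ value T.toHodgeData x y B := by
    intro A B hAB
    have hA := value_nonneg T.toHodgeData hx hy A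
    have hB := value_nonneg T.toHodgeData hx hy B
    have h1 : ∀ ε : ℝ, 0 < ε →
        value T.toHodgeData x y A ≤ Real.exp (ε * T.dim A) * value T.toHodgeData x y B := by
      intro ε hε
      obtain ⟨C, hC⟩ := h ε hε
      refine le_of_pow (C := C) (by positivity) fun N => ?_
      have h2 := hC _ _ (pw_deq T hAB N)
      rw [pw_value, pw_value, pw_dim] at h2
      refine h2.trans (le_of_eq ?_)
      rw [mul_pow, ← Real.exp_nat_mul, mul_assoc]
      congr 3
      push_cast
      ring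
    have h2 : Tendsto (fun n : ℕ => Real.exp (1 / ((n : ℝ) + 1) * T.dim A) *
        value T.toHodgeData x y B) atTop (𝓝 (Real.exp (0 * T.dim A) * value T.toHodgeData x y B)) :=
      ((Real.continuous_exp.tendsto _).comp
        (tendsto_one_div_add_atTop_nhds_zero_nat.mul_const _)).mul_const _
    have h3 := ge_of_tendsto' h2 fun n => h1 (1 / ((n : ℝ) + 1)) (by positivity)
    simpa using h3
  intro A B hAB
  exact le_antisymm (key A B hAB) (key B A (T.deq_symm A B hAB))

theorem tfae (hℓ : ℓ.Prime) (h2 : ℓ ≠ 2) {x y : ℝ} (hx : 0 ≤ x) (hy : 0 ≤ y) :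
    List.TFAE [ValueComparable T.toHodgeData x y, ValueInvariant T.toHodgeData x y,
      ClassSumsInvariant T.toHodgeData x y] := by
  tfae_have 1 → 2 := inv_of_comp T hx hy
  tfae_have 2 → 3 := classSum_of_inv T.toCyclicClass hℓ h2 hx hy
  tfae_have 3 → 2 := inv_of_classSum T.toHodgeData
  tfae_have 2 → 1 := comp_of_inv T.toHodgeData hx hy
  tfae_finish

end powers

end Pool.Agent.U586.HV
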